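import Mathlib
import Pool.Agent.H71.RotDefs
import Pool.Agent.H71.RotCyc

set_option autoImplicit false

namespace Pool.Agent.Results.MP_3688cb_co.InfinitelyMany

open Pool.Agent.H71.Rot

lemma card_TVertex (i : ℕ) : Nat.card (TVertex i) = 3 * (2 ^ i - 1) + 1 := by
  have h1 : Nat.card {h : ℕ // 1 ≤ h ∧ h < 2 ^ i} = 2 ^ i - 1 := by
    rw [Nat.subtype_card (Finset.Ico 1 (2 ^ i)) (by simp), Nat.card_Ico]
  have h2 : Nat.card (TVertex i) = Nat.card (Fin 3 × {h : ℕ // 1 ≤ h ∧ h < 2 ^ i}) + 1 := Finite.card_option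
  rw [h2, Nat.card_prod, h1]
  simp

lemma isSnark (k : ℕ) : IsSnark (theGraph k) :=
  ⟨inferInstance, cubic k, cyclicallyConnected k, girth k, uncolourable k⟩

lemma isRotationTSnark (k : ℕ) : IsRotationTSnark (k + 6) (theGraph k) := by
  refine ⟨isSnark k, Equiv.refl _, ?_, ?_⟩
  · intro u v h
    exact Or.inl h
  · intro a b a' b' ha hb ha' hb' h1 h2 h
    exact rotation a b a' b' ha hb ha' hb' h1 h2 h

/-- There are infinitely many pairwise non-isomorphic rotation snarks; in fact there is a rotation `T_i`-snark for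
every `i ≥ 6`. -/
theorem result : ∃ G : (k : ℕ) → SimpleGraph (TVertex (k + 6)),
    (∀ k, IsRotationTSnark (k + 6) (G k) ∧ IsRotationSnark (G k)) ∧
    ∀ k l, k ≠ l → IsEmpty (G k ≃g G l) := by
  refine ⟨fun k => theGraph k, fun k => ⟨isRotationTSnark k, k + 6, by omega, isRotationTSnark k⟩, ?_⟩
  intro k l hkl
  refine ⟨fun e => hkl ?_⟩
  have h := Nat.card_congr e.toEquiv
  rw [card_TVertex, card_TVertex] at h
  have h1 := Nat.one_le_two_pow (n := k + 6)
  have h2 := Nat.one_le_two_pow (n := l + 6)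
  have h3 : 2 ^ (k + 6) = 2 ^ (l + 6) := by omega
  have h4 := Nat.pow_right_injective (le_refl 2) h3
  omega

end Pool.Agent.Results.MP_3688cb_co.InfinitelyMany
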